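import Pool.Agent.Y428.Ab.Haar

/-!
# Graphs without `C_8` with a free action of an elementary abelian 2-group
-/

set_option autoImplicit false

namespace Pool.Agent.W5h11.PE

open SimpleGraph Finset
open scoped Classical

variable {F : Type} [Field F] [Fintype F] {M : ℕ}

/-- the point `P = (x, y)` is on the line `L = (m, b)` -/
def Inc (P L : F × F) : Prop := P.2 = L.1 * P.1 + L.2

/-- the voltages -/
abbrev Vo (F : Type) (M : ℕ) : Type := F × F → F × F → Fin M → ZMod 2

/-- the cover -/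
def cov (f : Vo F M) : SimpleGraph ((Fin M → ZMod 2) × (Bool × (F × F))) where
  Adj u v := (u.2.1 = true ∧ v.2.1 = false ∧ Inc u.2.2 v.2.2 ∧ v.1 = u.1 + f u.2.2 v.2.2) ∨
    (v.2.1 = true ∧ u.2.1 = false ∧ Inc v.2.2 u.2.2 ∧ u.1 = v.1 + f v.2.2 u.2.2)
  symm := ⟨fun _ _ h => h.symm⟩
  loopless := ⟨fun x h => by rcases h with ⟨h1, h2, _⟩ | ⟨h1, h2, _⟩ <;> simp [h1] at h2⟩

/-- the parameters of a closed walk of length 8: the four abscissas, the four slopes and the
first ordinate -/
abbrev Par (F : Type) : Type := (Fin 4 → F) × (Fin 4 → F) × F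

def b0 (c : Par F) : F := c.2.2 - c.2.1 0 * c.1 0
def y1 (c : Par F) : F := c.2.1 0 * c.1 1 + b0 c
def b1 (c : Par F) : F := y1 c - c.2.1 1 * c.1 1
def y2 (c : Par F) : F := c.2.1 1 * c.1 2 + b1 c
def b2 (c : Par F) : F := y2 c - c.2.1 2 * c.1 2
def y3 (c : Par F) : F := c.2.1 2 * c.1 3 + b2 c
def b3 (c : Par F) : F := y3 c - c.2.1 3 * c.1 3

/-- the sum of the voltages -/
def Sm (c : Par F) (f : Vo F M) : Fin M → ZMod 2 :=
  f (c.1 0, c.2.2) (c.2.1 0, b0 c) + (f (c.1 1, y1 c) (c.2.1 0, b0 c) +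
  f (c.1 1, y1 c) (c.2.1 1, b1 c) + f (c.1 2, y2 c) (c.2.1 1, b1 c) +
  f (c.1 2, y2 c) (c.2.1 2, b2 c) + f (c.1 3, y3 c) (c.2.1 2, b2 c) +
  f (c.1 3, y3 c) (c.2.1 3, b3 c) + f (c.1 0, c.2.2) (c.2.1 3, b3 c))

/-- the first flag is used only once -/
def Once (c : Par F) : Prop :=
  (c.1 1, y1 c) ≠ (c.1 0, c.2.2) ∧ (c.1 2, y2 c) ≠ (c.1 0, c.2.2) ∧
  (c.1 3, y3 c) ≠ (c.1 0, c.2.2) ∧ (c.2.1 3, b3 c) ≠ (c.2.1 0, b0 c)

/-- the choices of the voltages for which the walk is closed in the cover -/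
theorem card_bad (c : Par F) (hc : Once c) :
    (univ.filter fun f : Vo F M => Sm c f = 0).card * 2 ^ M ≤ Fintype.card (Vo F M) := by
  obtain ⟨h1, h2, h3, h4⟩ := hc
  set P0 : F × F := (c.1 0, c.2.2) with hP0
  set L0 : F × F := (c.2.1 0, b0 c) with hL0
  let φ : Vo F M × (Fin M → ZMod 2) → Vo F M :=
    fun p => fun P L => if P = P0 ∧ L = L0 then p.1 P L + p.2 else p.1 P L
  have hval : ∀ (p : Vo F M × (Fin M → ZMod 2)) (P L : F × F), (P ≠ P0 ∨ L ≠ L0) →
      φ p P L = p.1 P L := by
    intro p P L h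
    simp only [φ]
    rw [if_neg]
    rintro ⟨h5, h6⟩
    rcases h with h | h
    · exact h h5
    · exact h h6
  have hS : ∀ p : Vo F M × (Fin M → ZMod 2), Sm c (φ p) = Sm c p.1 + p.2 := by
    intro p
    unfold Sm
    rw [← hP0, ← hL0]
    rw [hval p _ _ (Or.inl h1), hval p _ _ (Or.inl h1), hval p _ _ (Or.inl h2),
      hval p _ _ (Or.inl h2), hval p _ _ (Or.inl h3), hval p _ _ (Or.inl h3),
      hval p _ _ (Or.inr h4)]
    have h5 : φ p P0 L0 = p.1 P0 L0 + p.2 := by
      simp only [φ, and_self, if_true]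
    rw [h5]
    abel
  have hinj : Set.InjOn φ ((univ.filter fun f : Vo F M => Sm c f = 0) ×ˢ
      (univ : Finset (Fin M → ZMod 2)) : Finset _) := by
    rintro ⟨f, γ⟩ hf ⟨f', γ'⟩ hf' he
    rw [mem_coe, mem_product, mem_filter] at hf hf'
    have e1 := congrArg (Sm c) he
    rw [hS, hS] at e1
    simp only at e1
    have g1 : Sm c f = 0 := hf.1.2
    have g2 : Sm c f' = 0 := hf'.1.2
    rw [g1, g2, zero_add, zero_add] at e1
    subst e1
    refine Prod.ext ?_ rfl
    funext P L
    have e2 := congrFun (congrFun he P) L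
    simp only [φ] at e2
    split_ifs at e2
    · exact add_right_cancel e2
    · exact e2
  have h5 := card_le_card_of_injOn φ (fun _ _ => mem_univ _) hinj
  rw [card_product, card_univ, card_univ, Fintype.card_fun, ZMod.card, Fintype.card_fin] at h5
  exact h5

/-- a good choice of the voltages -/
theorem exists_good (hM : Fintype.card F ^ 9 < 2 ^ M) :
    ∃ f : Vo F M, ∀ c : Par F, Once c → Sm c f ≠ 0 := by
  by_contra hcon
  push Not at hcon
  have h1 : (univ : Finset (Vo F M)) ⊆ (univ.filter fun c : Par F => Once c).biUnion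
      fun c => univ.filter fun f : Vo F M => Sm c f = 0 := by
    intro f _
    obtain ⟨c, hc, hf⟩ := hcon f
    exact mem_biUnion.2 ⟨c, mem_filter.2 ⟨mem_univ _, hc⟩, mem_filter.2 ⟨mem_univ _, hf⟩⟩
  have h2 := (card_le_card h1).trans card_biUnion_le
  have h3 : (∑ c ∈ univ.filter fun c : Par F => Once c,
      (univ.filter fun f : Vo F M => Sm c f = 0).card) * 2 ^ M ≤
      Fintype.card F ^ 9 * Fintype.card (Vo F M) := by
    rw [sum_mul]
    calc _ ≤ ∑ c ∈ univ.filter fun c : Par F => Once c, Fintype.card (Vo F M) :=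
          sum_le_sum fun c hc => card_bad c (mem_filter.1 hc).2
      _ ≤ ∑ _c : Par F, Fintype.card (Vo F M) :=
          sum_le_sum_of_subset (filter_subset _ _)
      _ = Fintype.card F ^ 9 * Fintype.card (Vo F M) := by
          rw [sum_const, smul_eq_mul, card_univ, Fintype.card_prod, Fintype.card_prod,
            Fintype.card_fun, Fintype.card_fin]
          ring
  rw [card_univ] at h2
  have h4 : Fintype.card (Vo F M) * 2 ^ M ≤ Fintype.card F ^ 9 * Fintype.card (Vo F M) :=
    (Nat.mul_le_mul_right _ h2).trans h3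
  rw [mul_comm] at h4
  have h5 : 0 < Fintype.card (Vo F M) := Fintype.card_pos
  have := Nat.le_of_mul_le_mul_right h4 h5
  omega

omit [Fintype F] in
theorem inc_unique {P Q L L' : F × F} (h1 : Inc P L) (h2 : Inc Q L) (h3 : Inc P L')
    (h4 : Inc Q L') : P = Q ∨ L = L' := by
  unfold Inc at *
  by_cases hm : L.1 = L'.1
  · right
    refine Prod.ext hm ?_
    rw [h1, hm] at h3
    exact add_left_cancel h3
  · left
    have h5 : (L.1 - L'.1) * P.1 = (L.1 - L'.1) * Q.1 := by
      linear_combination h1 - h3 - h2 + h4 - 2 * h1 + 2 * h3 + 2 * h2 - 2 * h4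
    have hx := mul_left_cancel₀ (sub_ne_zero.2 hm) h5
    refine Prod.ext hx ?_
    rw [h1, h2, hx]

omit [Fintype F] in
theorem cov_free (f : Vo F M) (hf : ∀ c : Par F, Once c → Sm c f ≠ 0) :
    (cycleGraph 8).Free (cov f) := by
  intro hcon
  obtain ⟨c0, h1, h2, h3⟩ := Pool.Agent.Y428.Ab.cyc_fun _ 8 (by norm_num) hcon
  have h1' : ∀ i, (cov f).Adj (c0 (i % 8)) (c0 ((i + 1) % 8)) := by
    intro i
    have h4 := h1 (i % 8)
    by_cases h5 : i % 8 = 7
    · rw [h5] at h4 ⊢
      rw [show (i + 1) % 8 = 0 by omega, ← h2]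
      exact h4
    · rwa [show (i + 1) % 8 = i % 8 + 1 by omega]
  have h3' : ∀ i j, c0 (i % 8) = c0 (j % 8) → i % 8 = j % 8 := by
    intro i j hij
    have := h3 _ _ hij
    omega
  -- start with a point
  obtain ⟨c, c1, c2, c3, c4⟩ : ∃ c : ℕ → (Fin M → ZMod 2) × (Bool × (F × F)),
      (∀ i, (cov f).Adj (c i) (c (i + 1))) ∧ c 8 = c 0 ∧
      (∀ i j, c i = c j → i % 8 = j % 8) ∧ (c 0).2.1 = true := by
    rcases h1' 0 with h | h
    · exact ⟨fun i => c0 (i % 8), h1', rfl, h3', h.1⟩
    · refine ⟨fun i => c0 ((i + 1) % 8), fun i => h1' (i + 1), rfl, fun i j hij => ?_, h.1⟩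
      have := h3' _ _ hij
      omega
  have hside : ∀ i, (c (2 * i)).2.1 = true ∧ (c (2 * i + 1)).2.1 = false := by
    have hs : ∀ i, (c i).2.1 = true → (c (i + 1)).2.1 = false := by
      intro i hi
      rcases c1 i with h | h
      · exact h.2.1
      · rw [hi] at h
        exact absurd h.2.1 (by simp)
    have hs' : ∀ i, (c i).2.1 = false → (c (i + 1)).2.1 = true := by
      intro i hi
      rcases c1 i with h | h
      · rw [hi] at h
        exact absurd h.1 (by simp)
      · exact h.1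
    intro i
    induction i with
    | zero => exact ⟨c4, hs 0 c4⟩
    | succ i ih =>
      have h4 := hs' _ ih.2
      exact ⟨h4, hs _ h4⟩
  set P : ℕ → F × F := fun i => (c (2 * i)).2.2 with hP
  set L : ℕ → F × F := fun i => (c (2 * i + 1)).2.2 with hL
  set g : ℕ → Fin M → ZMod 2 := fun i => (c (2 * i)).1 with hg
  set h : ℕ → Fin M → ZMod 2 := fun i => (c (2 * i + 1)).1 with hh
  have hA : ∀ i, Inc (P i) (L i) ∧ h i = g i + f (P i) (L i) := by
    intro i
    rcases c1 (2 * i) with h4 | h4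
    · exact h4.2.2
    · rw [(hside i).1] at h4
      exact absurd h4.2.1 (by simp)
  have hB : ∀ i, Inc (P (i + 1)) (L i) ∧ h i = g (i + 1) + f (P (i + 1)) (L i) := by
    intro i
    rcases c1 (2 * i + 1) with h4 | h4
    · rw [(hside i).2] at h4
      exact absurd h4.1 (by simp)
    · exact h4.2.2
  have hP4 : P 4 = P 0 := by
    simp only [hP]
    rw [c2]
  have hg4 : g 4 = g 0 := by
    simp only [hg]
    rw [c2]
  have hPne : ∀ i, P i ≠ P (i + 1) := by
    intro i he
    have h4 := (hA i).2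
    rw [(hB i).2, he] at h4
    have h5 : c (2 * i) = c (2 * (i + 1)) :=
      Prod.ext (add_right_cancel h4).symm
        (Prod.ext ((hside i).1.trans (hside (i + 1)).1.symm) he)
    have := c3 _ _ h5
    omega
  have hLne : ∀ i, L i ≠ L (i + 1) := by
    intro i he
    have h4 := (hA (i + 1)).2
    rw [← he, ← (hB i).2] at h4
    have h5 : c (2 * i + 1) = c (2 * (i + 1) + 1) :=
      Prod.ext h4.symm (Prod.ext ((hside i).2.trans (hside (i + 1)).2.symm) he)
    have := c3 _ _ h5
    omega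
  have hL3 : L 3 ≠ L 0 := by
    intro he
    have h4 := (hA 0).2
    have h5 := (hB 3).2
    rw [hg4, hP4, he, ← h4] at h5
    have h6 : c (2 * 3 + 1) = c (2 * 0 + 1) :=
      Prod.ext h5 (Prod.ext ((hside 3).2.trans (hside 0).2.symm) he)
    have := c3 _ _ h6
    omega
  -- the parameters
  let q : Par F := (fun i => (P i).1, fun i => (L i).1, (P 0).2)
  have e0 : b0 q = (L 0).2 := by
    have := (hA 0).1
    unfold Inc at this
    show (P 0).2 - (L 0).1 * (P 0).1 = (L 0).2
    rw [this]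
    ring
  have f1 : y1 q = (P 1).2 := by
    have := (hB 0).1
    unfold Inc at this
    unfold y1
    rw [e0]
    exact this.symm
  have e1 : b1 q = (L 1).2 := by
    have := (hA 1).1
    unfold Inc at this
    unfold b1
    rw [f1]
    show (P 1).2 - (L 1).1 * (P 1).1 = (L 1).2
    rw [this]
    ring
  have f2 : y2 q = (P 2).2 := by
    have := (hB 1).1
    unfold Inc at this
    unfold y2
    rw [e1]
    exact this.symm
  have e2 : b2 q = (L 2).2 := by
    have := (hA 2).1
    unfold Inc at this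
    unfold b2
    rw [f2]
    show (P 2).2 - (L 2).1 * (P 2).1 = (L 2).2
    rw [this]
    ring
  have f3 : y3 q = (P 3).2 := by
    have := (hB 2).1
    unfold Inc at this
    unfold y3
    rw [e2]
    exact this.symm
  have e3 : b3 q = (L 3).2 := by
    have := (hA 3).1
    unfold Inc at this
    unfold b3
    rw [f3]
    show (P 3).2 - (L 3).1 * (P 3).1 = (L 3).2
    rw [this]
    ring
  have k0 : (q.1 0, q.2.2) = P 0 := rfl
  have k1 : (q.1 1, y1 q) = P 1 := by rw [f1]; rfl
  have k2 : (q.1 2, y2 q) = P 2 := by rw [f2]; rfl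
  have k3 : (q.1 3, y3 q) = P 3 := by rw [f3]; rfl
  have l0 : (q.2.1 0, b0 q) = L 0 := by rw [e0]; rfl
  have l1 : (q.2.1 1, b1 q) = L 1 := by rw [e1]; rfl
  have l2 : (q.2.1 2, b2 q) = L 2 := by rw [e2]; rfl
  have l3 : (q.2.1 3, b3 q) = L 3 := by rw [e3]; rfl
  refine hf q ⟨?_, ?_, ?_, ?_⟩ ?_
  · rw [k0, k1]
    exact (hPne 0).symm
  · rw [k0, k2]
    intro he
    have h4 := (hB 1).1
    rw [he] at h4
    rcases inc_unique (hA 0).1 (hB 0).1 h4 (hA 1).1 with h5 | h5
    · exact hPne 0 h5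
    · exact hLne 0 h5
  · rw [k0, k3, ← hP4]
    exact hPne 3
  · rw [l0, l3]
    exact hL3
  · unfold Sm
    rw [k0, k1, k2, k3, l0, l1, l2, l3]
    have a0 := (hA 0).2
    have a1 := (hA 1).2
    have a2 := (hA 2).2
    have a3 := (hA 3).2
    have d0 := (hB 0).2
    have d1 := (hB 1).2
    have d2 := (hB 2).2
    have d3 := (hB 3).2
    rw [hg4, hP4] at d3
    funext k
    have a0 := congrFun a0 k
    have a1 := congrFun a1 k
    have a2 := congrFun a2 k
    have a3 := congrFun a3 k
    have d0 := congrFun d0 k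
    have d1 := congrFun d1 k
    have d2 := congrFun d2 k
    have d3 := congrFun d3 k
    simp only [Pi.add_apply, Pi.zero_apply] at a0 a1 a2 a3 d0 d1 d2 d3 ⊢
    have two : (2 : ZMod 2) = 0 := rfl
    linear_combination -(a0 + a1 + a2 + a3 + d0 + d1 + d2 + d3) +
      (h 0 k + h 1 k + h 2 k + h 3 k - g 0 k - g 1 k - g 2 k - g 3 k) * two

/-- the number of edges -/
theorem cov_edges (f : Vo F M) : 2 * (cov f).edgeSet.ncard =
    Fintype.card ((Fin M → ZMod 2) × (Bool × (F × F))) * Fintype.card F := by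
  have h3 : (cov f).edgeSet.ncard = (cov f).edgeFinset.card := by
    rw [← SimpleGraph.coe_edgeFinset, Set.ncard_coe_finset]
  rw [h3, ← SimpleGraph.sum_degrees_eq_twice_card_edges]
  have hd : ∀ u, (cov f).degree u = Fintype.card F := by
    rintro ⟨g, s, P⟩
    rw [← SimpleGraph.card_neighborFinset_eq_degree, ← card_univ (α := F)]
    cases s
    · -- a line
      refine (card_bij (fun (x : F) _ => ((g - f (x, P.1 * x + P.2) P, (true, (x, P.1 * x + P.2))) :
        (Fin M → ZMod 2) × (Bool × (F × F)))) ?_ ?_ ?_).symm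
      · intro x _
        rw [SimpleGraph.mem_neighborFinset]
        right
        exact ⟨rfl, rfl, rfl, by simp⟩
      · intro x _ y _ h
        exact congrArg (fun z : (Fin M → ZMod 2) × (Bool × (F × F)) => z.2.2.1) h
      · rintro ⟨h, s, Q⟩ hv
        rw [SimpleGraph.mem_neighborFinset] at hv
        rcases hv with hv | hv
        · exact absurd hv.1 (by simp)
        · obtain ⟨a1, -, a3, a4⟩ := hv
          simp only at a1 a3 a4
          subst a1
          have a5 : Q = (Q.1, P.1 * Q.1 + P.2) := Prod.ext rfl a3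
          refine ⟨Q.1, mem_univ _, ?_⟩
          rw [← a5, a4, add_sub_cancel_right]
    · -- a point
      refine (card_bij (fun (m : F) _ => ((g + f P (m, P.2 - m * P.1), (false, (m, P.2 - m * P.1))) :
        (Fin M → ZMod 2) × (Bool × (F × F)))) ?_ ?_ ?_).symm
      · intro x _
        rw [SimpleGraph.mem_neighborFinset]
        left
        refine ⟨rfl, rfl, ?_, rfl⟩
        show P.2 = x * P.1 + (P.2 - x * P.1)
        ring
      · intro x _ y _ h
        exact congrArg (fun z : (Fin M → ZMod 2) × (Bool × (F × F)) => z.2.2.1) h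
      · rintro ⟨h, s, Q⟩ hv
        rw [SimpleGraph.mem_neighborFinset] at hv
        rcases hv with hv | hv
        · obtain ⟨-, a1, a3, a4⟩ := hv
          simp only at a1 a3 a4
          subst a1
          have a5 : Q = (Q.1, P.2 - Q.1 * P.1) := by
            refine Prod.ext rfl ?_
            unfold Inc at a3
            simp only
            rw [a3]
            ring
          refine ⟨Q.1, mem_univ _, ?_⟩
          rw [← a5, a4]
        · exact absurd hv.2.1 (by simp)
  rw [sum_congr rfl fun u _ => hd u, sum_const, card_univ, smul_eq_mul]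

/-- the group of the cover -/
abbrev Gr (M : ℕ) : Type := Multiplicative (Fin M → ZMod 2)

@[reducible] def act : MulAction (Gr M) ((Fin M → ZMod 2) × (Bool × (F × F))) where
  smul γ u := (Multiplicative.toAdd γ + u.1, u.2)
  one_smul u := by
    show (Multiplicative.toAdd 1 + u.1, u.2) = u
    rw [toAdd_one, zero_add]
  mul_smul γ δ u := by
    show (Multiplicative.toAdd (γ * δ) + u.1, u.2) =
      (Multiplicative.toAdd γ + (Multiplicative.toAdd δ + u.1), u.2)
    rw [toAdd_mul, add_assoc]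

attribute [local instance] act

omit [Field F] [Fintype F] in
theorem act_def (γ : Gr M) (u : (Fin M → ZMod 2) × (Bool × (F × F))) :
    γ • u = (Multiplicative.toAdd γ + u.1, u.2) := rfl

omit [Field F] in
theorem card_orb : Nat.card (MulAction.orbitRel.Quotient (Gr M)
    ((Fin M → ZMod 2) × (Bool × (F × F)))) = 2 * Fintype.card F ^ 2 := by
  have e : MulAction.orbitRel.Quotient (Gr M)
      ((Fin M → ZMod 2) × (Bool × (F × F))) ≃ Bool × (F × F) := by
    refine Equiv.ofBijective (Quotient.lift (fun u => u.2) ?_) ⟨?_, ?_⟩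
    · rintro u v ⟨g, h⟩
      have h' : g • v = u := h
      rw [← h']
      rfl
    · rintro ⟨u⟩ ⟨v⟩ h
      have h' : u.2 = v.2 := h
      refine Quotient.sound ⟨Multiplicative.ofAdd (u.1 - v.1), ?_⟩
      show Multiplicative.ofAdd (u.1 - v.1) • v = u
      rw [act_def]
      exact Prod.ext (by simp) h'.symm
    · intro b
      exact ⟨Quotient.mk'' (0, b), rfl⟩
  rw [Nat.card_congr e, Nat.card_eq_fintype_card, Fintype.card_prod, Fintype.card_prod,
    Fintype.card_bool]
  ring

/-- graphs without `C_8` with few orbits -/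
theorem sharp8 (F : Type) [Field F] [Finite F] (M : ℕ) (hM : Nat.card F ^ 9 < 2 ^ M) :
    ∃ (Γ V : Type) (_ : Group Γ) (_ : Finite V) (_ : MulAction Γ V) (X : SimpleGraph V),
      (∀ g : Γ, g ^ 2 = 1) ∧ (∀ (g : Γ) (a c : V), X.Adj a c → X.Adj (g • a) (g • c)) ∧
      (∀ (g : Γ) (a : V), g • a = a → g = 1) ∧ (cycleGraph 8).Free X ∧
      Nat.card V = 2 ^ M * (2 * Nat.card F ^ 2) ∧
      Nat.card (MulAction.orbitRel.Quotient Γ V) = 2 * Nat.card F ^ 2 ∧
      2 * X.edgeSet.ncard = Nat.card V * Nat.card F := by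
  let _ : Fintype F := Fintype.ofFinite F
  rw [Nat.card_eq_fintype_card] at hM ⊢
  obtain ⟨f, hf⟩ := exists_good (F := F) hM
  refine ⟨Gr M, (Fin M → ZMod 2) × (Bool × (F × F)), inferInstance, inferInstance, act, cov f,
    ?_, ?_, ?_, cov_free f hf, ?_, card_orb, ?_⟩
  · intro g
    apply Multiplicative.toAdd.injective
    rw [sq, toAdd_mul, toAdd_one]
    funext k
    exact CharTwo.add_self_eq_zero _
  · intro g a c h
    rw [act_def, act_def]
    rcases h with ⟨h1, h2, h3, h4⟩ | ⟨h1, h2, h3, h4⟩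
    · exact Or.inl ⟨h1, h2, h3, by simp only; rw [h4, add_assoc]⟩
    · exact Or.inr ⟨h1, h2, h3, by simp only; rw [h4, add_assoc]⟩
  · intro g a h
    rw [act_def] at h
    have h1 : Multiplicative.toAdd g + a.1 = a.1 := congrArg Prod.fst h
    apply Multiplicative.toAdd.injective
    rw [toAdd_one]
    exact add_eq_right.mp h1
  · rw [Nat.card_eq_fintype_card, Fintype.card_prod, Fintype.card_prod, Fintype.card_prod,
      Fintype.card_bool, Fintype.card_fun, ZMod.card, Fintype.card_fin]
    ring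
  · rw [cov_edges, Nat.card_eq_fintype_card]

end Pool.Agent.W5h11.PE
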