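import Pool.Agent.Y428.Ab.Top

/-!
# Closed alternating words in groups of prime exponent
-/

set_option autoImplicit false

namespace Pool.Agent.W5h11.PE

open SimpleGraph Finset
open scoped Classical

open Pool.Agent.H694R4 (cycle_of_fun)
open Pool.Agent.H694R4.Law (haar)

variable {Γ : Type} [Group Γ]

/-- the step from `x` to `y` number `i` of an alternating word with letters in `T` -/
def St (T : Finset Γ) (i : ℕ) (x y : Γ) : Prop :=
  (i % 2 = 0 → x⁻¹ * y ∈ T) ∧ (i % 2 = 1 → y⁻¹ * x ∈ T)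

/-- the candidates for the next vertex -/
theorem next (T : Finset Γ) (i : ℕ) (x : Γ) (B : Finset Γ) (h : B.card < T.card) :
    ∃ y, y ∉ B ∧ St T i x y := by
  rcases Nat.mod_two_eq_zero_or_one i with hi | hi
  · have h1 : (T.image fun s => x * s).card = T.card :=
      card_image_of_injective _ (mul_right_injective x)
    obtain ⟨y, hy, hyB⟩ := exists_mem_notMem_of_card_lt_card (s := B)
      (t := T.image fun s => x * s) (by rw [h1]; exact h)
    obtain ⟨s, hs, rfl⟩ := mem_image.1 hy
    exact ⟨_, hyB, fun _ => by rwa [inv_mul_cancel_left], fun h' => by omega⟩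
  · have h1 : (T.image fun s => x * s⁻¹).card = T.card :=
      card_image_of_injective _ fun a b hab => inv_injective (mul_right_injective x hab)
    obtain ⟨y, hy, hyB⟩ := exists_mem_notMem_of_card_lt_card (s := B)
      (t := T.image fun s => x * s⁻¹) (by rw [h1]; exact h)
    obtain ⟨s, hs, rfl⟩ := mem_image.1 hy
    refine ⟨_, hyB, fun h' => by omega, fun _ => ?_⟩
    rwa [mul_inv_rev, inv_inv, inv_mul_cancel_right]

theorem greedy (T : Finset Γ) (i : ℕ) (hT : i + 1 ≤ T.card) : ∃ w : ℕ → Γ, w 0 = 1 ∧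
    (∀ j < i, St T j (w j) (w (j + 1))) ∧ (∀ a b, a ≤ i → b ≤ i → w a = w b → a = b) := by
  induction i with
  | zero => exact ⟨fun _ => 1, rfl, fun j hj => absurd hj (by omega), fun a b _ _ _ => by omega⟩
  | succ i ih =>
    obtain ⟨w, h1, h2, h3⟩ := ih (by omega)
    obtain ⟨y, hy, hs⟩ := next T i (w i) ((range (i + 1)).image w)
      (lt_of_le_of_lt card_image_le (by rw [card_range]; omega))
    have hy' : ∀ a ≤ i, w a ≠ y := fun a ha h => hy (mem_image.2 ⟨a, mem_range.2 (by omega), h⟩)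
    refine ⟨fun j => if j = i + 1 then y else w j, ?_, ?_, ?_⟩
    · simp [h1]
    · intro j hj
      simp only
      rw [if_neg (by omega)]
      by_cases hji : j = i
      · subst hji
        rw [if_pos rfl]
        exact hs
      · rw [if_neg (by omega)]
        exact h2 j (by omega)
    · intro a b ha hb hab
      simp only at hab
      split_ifs at hab with h4 h5 h5
      · omega
      · exact absurd hab.symm (hy' b (by omega))
      · exact absurd hab (hy' a (by omega))
      · exact h3 a b (by omega) (by omega) hab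

theorem pow_inj {p r : ℕ} (hp : p.Prime) (hr0 : 0 < r) (hrp : r < p) (g h : Γ) (hg : g ^ p = 1)
    (hh : h ^ p = 1) (he : g ^ r = h ^ r) : g = h := by
  have hc : Nat.Coprime r p := (Nat.coprime_of_lt_prime hr0.ne' hrp hp).symm
  obtain ⟨m, hm1, hm⟩ := Nat.exists_mul_mod_eq_one_of_coprime hc hp.one_lt
  have h1 : r * m = p * (r * m / p) + 1 := by
    conv_lhs => rw [← Nat.div_add_mod (r * m) p, hm]
  have h2 : ∀ x : Γ, x ^ p = 1 → x ^ (r * m) = x := by
    intro x hx
    rw [h1, pow_succ, pow_mul, hx, one_pow, one_mul]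
  rw [← h2 g hg, ← h2 h hh, pow_mul, pow_mul, he]

/-- a closed alternating word without closed parts -/
theorem seq (p ℓ : ℕ) (hp : p.Prime) (hℓ : 1 ≤ ℓ) (hexp : ∀ g : Γ, g ^ p = 1) (T : Finset Γ)
    (hT : p * (2 * ℓ) ^ 2 < T.card) : ∃ v : ℕ → Γ,
    (∀ i, St T i (v i) (v (i + 1))) ∧ v (2 * (p * ℓ)) = v 0 ∧
    (∀ i j, i < j → j < 2 * (p * ℓ) → v i ≠ v j) := by
  have hp1 := hp.one_lt
  obtain ⟨m, hm⟩ : ∃ m, 2 * ℓ = m + 1 := ⟨2 * ℓ - 1, by omega⟩
  have hm1 : m % 2 = 1 := by omega
  rw [hm] at hT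
  have hTm : m + 1 ≤ T.card := by nlinarith
  obtain ⟨w, w0, w1, w2⟩ := greedy T m hTm
  -- the bad values of the product
  set B : Finset Γ := ((range (p - 1) ×ˢ (range (m + 1) ×ˢ range (m + 1))).image fun q =>
    if h : ∃ y : Γ, y ^ (q.1 + 1) = w q.2.2 * (w q.2.1)⁻¹ then h.choose else 1) with hB
  have hBc : B.card < T.card := by
    refine lt_of_le_of_lt card_image_le ?_
    rw [card_product, card_product, card_range, card_range]
    have : (p - 1) * ((m + 1) * (m + 1)) ≤ p * (m + 1) ^ 2 := by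
      rw [sq]
      exact Nat.mul_le_mul_right _ (by omega)
    omega
  obtain ⟨W, hWB, hW⟩ := next T m (w m) B hBc
  have hWne : ∀ r a b, 1 ≤ r → r < p → a ≤ m → b ≤ m → W ^ r * w a ≠ w b := by
    intro r a b hr1 hr2 ha hb he
    apply hWB
    have h1 : W ^ r = w b * (w a)⁻¹ := by rw [← he, mul_inv_cancel_right]
    have h : ∃ y : Γ, y ^ (r - 1 + 1) = w b * (w a)⁻¹ := ⟨W, by rw [Nat.sub_add_cancel hr1, h1]⟩
    refine mem_image.2 ⟨(r - 1, a, b), ?_, ?_⟩
    · rw [mem_product, mem_product, mem_range, mem_range, mem_range]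
      refine ⟨?_, ?_, ?_⟩ <;> simp only <;> omega
    · simp only
      rw [dif_pos h]
      have h3 : ∀ y : Γ, y ^ (r - 1 + 1) = w b * (w a)⁻¹ → y = W := by
        intro y hy
        rw [Nat.sub_add_cancel hr1, ← h1] at hy
        exact pow_inj hp (by omega : 0 < r) hr2 _ _ (hexp _) (hexp _) hy
      exact h3 _ h.choose_spec
  refine ⟨fun i => W ^ (i / (m + 1)) * w (i % (m + 1)), ?_, ?_, ?_⟩
  · intro i
    have h0 := Nat.div_add_mod i (m + 1)
    have hlt := Nat.mod_lt i (show 0 < m + 1 by omega)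
    have hpar : i % 2 = i % (m + 1) % 2 := by
      have : (m + 1) * (i / (m + 1)) % 2 = 0 := by
        rw [Nat.mul_mod, show (m + 1) % 2 = 0 by omega]
        simp
      omega
    by_cases hi : i % (m + 1) = m
    · have e1 : (i + 1) / (m + 1) = i / (m + 1) + 1 := by
        have : i + 1 = (m + 1) * (i / (m + 1) + 1) := by
          rw [mul_add, mul_one]
          omega
        rw [this, Nat.mul_div_cancel_left _ (by omega)]
      have e2 : (i + 1) % (m + 1) = 0 := by
        have : i + 1 = (m + 1) * (i / (m + 1) + 1) := by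
          rw [mul_add, mul_one]
          omega
        rw [this, Nat.mul_mod_right]
      simp only
      rw [e1, e2, hi, w0, mul_one]
      refine ⟨fun h => by omega, fun _ => ?_⟩
      have h3 := hW.2 hm1
      have h4 : (W ^ (i / (m + 1) + 1))⁻¹ * (W ^ (i / (m + 1)) * w m) = W⁻¹ * w m := by
        rw [pow_succ, mul_inv_rev, mul_assoc, inv_mul_cancel_left]
      rw [h4]
      exact h3
    · have e0 : i + 1 = (m + 1) * (i / (m + 1)) + (i % (m + 1) + 1) := by omega
      have e3 : i % (m + 1) + 1 < m + 1 := by omega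
      have e1 : (i + 1) / (m + 1) = i / (m + 1) := by
        conv_lhs => rw [e0]
        rw [Nat.mul_add_div (by omega), Nat.div_eq_of_lt e3, add_zero]
      have e2 : (i + 1) % (m + 1) = i % (m + 1) + 1 := by
        conv_lhs => rw [e0]
        rw [Nat.mul_add_mod, Nat.mod_eq_of_lt e3]
      simp only
      rw [e1, e2]
      have h3 := w1 (i % (m + 1)) (by omega)
      refine ⟨fun h => ?_, fun h => ?_⟩
      · have h4 := h3.1 (by omega)
        rwa [mul_inv_rev, mul_assoc, inv_mul_cancel_left]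
      · have h4 := h3.2 (by omega)
        rwa [mul_inv_rev, mul_assoc, inv_mul_cancel_left]
  · simp only
    have h1 : 2 * (p * ℓ) = (m + 1) * p := by rw [← hm]; ring
    rw [h1, Nat.mul_div_cancel_left _ (by omega), Nat.mul_mod_right, hexp, Nat.zero_div,
      Nat.zero_mod, pow_zero]
  · intro i j hij hj he
    simp only at he
    have hj' : j < (m + 1) * p := by
      have : (m + 1) * p = 2 * (p * ℓ) := by rw [← hm]; ring
      omega
    have hi0 := Nat.div_add_mod i (m + 1)
    have hilt := Nat.mod_lt i (show 0 < m + 1 by omega)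
    have hj0 := Nat.div_add_mod j (m + 1)
    have hjlt := Nat.mod_lt j (show 0 < m + 1 by omega)
    have hle : i / (m + 1) ≤ j / (m + 1) := Nat.div_le_div_right hij.le
    have hjp : j / (m + 1) < p := Nat.div_lt_of_lt_mul hj'
    rcases Nat.eq_or_lt_of_le hle with h | h
    · rw [h] at he
      have h5 := w2 _ _ (by omega) (by omega) (mul_left_cancel he)
      rw [h, h5] at hi0
      omega
    · obtain ⟨r, hr⟩ : ∃ r, j / (m + 1) = i / (m + 1) + r := ⟨_, (Nat.add_sub_of_le hle).symm⟩
      rw [hr, pow_add, mul_assoc] at he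
      rw [hr] at h hjp
      have hr1 : 1 ≤ r := Nat.pos_of_ne_zero fun h0 => by
        rw [h0, add_zero] at h
        exact lt_irrefl _ h
      exact hWne r (j % (m + 1)) (i % (m + 1)) hr1 (lt_of_le_of_lt (Nat.le_add_left _ _) hjp)
        (by omega) (by omega) (mul_left_cancel he).symm

/-- the cycle in the Haar graph -/
theorem haar_cycle (p ℓ : ℕ) (hp : p.Prime) (hℓ : 1 ≤ ℓ) (hexp : ∀ g : Γ, g ^ p = 1)
    (T : Finset Γ) (hT : p * (2 * ℓ) ^ 2 < T.card) :
    cycleGraph (2 * (p * ℓ)) ⊑ haar (T : Set Γ) := by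
  obtain ⟨v, h1, h2, h3⟩ := seq p ℓ hp hℓ hexp T hT
  have hp2 := hp.two_le
  have hpl : 2 ≤ p * ℓ := by nlinarith
  have hadj : ∀ i, (haar (T : Set Γ)).Adj (v i, decide (i % 2 = 0))
      (v (i + 1), decide ((i + 1) % 2 = 0)) := by
    intro i
    rcases Nat.mod_two_eq_zero_or_one i with hi | hi
    · left
      refine ⟨by simp [hi], ?_, (h1 i).1 hi⟩
      have : (i + 1) % 2 ≠ 0 := by omega
      simp [this]
    · right
      refine ⟨?_, ?_, (h1 i).2 hi⟩
      · have : (i + 1) % 2 = 0 := by omega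
        simp [this]
      · have : i % 2 ≠ 0 := by omega
        simp [this]
  refine cycle_of_fun _ _ (by omega) (fun i => (v i, decide (i % 2 = 0)))
    (fun i _ => hadj i) ?_ ?_
  · have h4 := hadj (2 * (p * ℓ) - 1)
    rw [Nat.sub_add_cancel (by omega), h2] at h4
    have h5 : decide (2 * (p * ℓ) % 2 = 0) = decide (0 % 2 = 0) := by simp
    rw [h5] at h4
    exact h4
  · intro i j hij hj he
    exact h3 i j hij hj (congrArg Prod.fst he)

/-- the local bound -/
theorem loc (p ℓ : ℕ) (hp : p.Prime) (hℓ : 1 ≤ ℓ) (V : Type) [MulAction Γ V] (X : SimpleGraph V)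
    (hexp : ∀ g : Γ, g ^ p = 1)
    (haut : ∀ (g : Γ) (a c : V), X.Adj a c → X.Adj (g • a) (g • c))
    (hfree : ∀ (g : Γ) (a : V), g • a = a → g = 1) (u v : V)
    (hN : ((p * (2 * ℓ) ^ 2 + 1 : ℕ) : ℕ∞) ≤ (X.neighborSet u ∩ MulAction.orbit Γ v).encard) :
    cycleGraph (2 * (p * ℓ)) ⊑ X := by
  by_cases huv : v ∈ MulAction.orbit Γ u
  · rw [MulAction.orbit_eq_iff.mpr huv] at hN
    obtain ⟨F, hF1, hF2⟩ := Set.exists_subset_encard_eq hN
    have hfin : F.Finite := Set.finite_of_encard_eq_coe hF2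
    have hex : ∀ y ∈ F, ∃ g : Γ, g • u = y := fun y hy => (hF1 hy).2
    choose! g hg using hex
    have hcard : (hfin.toFinset.image g).card = p * (2 * ℓ) ^ 2 + 1 := by
      rw [Finset.card_image_of_injOn, ← Set.ncard_eq_toFinset_card _ hfin, Set.ncard, hF2]
      · rfl
      · intro y hy y' hy' h
        rw [Finset.mem_coe, Set.Finite.mem_toFinset] at hy hy'
        rw [← hg y hy, ← hg y' hy', h]
    have hadj : ∀ s ∈ hfin.toFinset.image g, X.Adj u (s • u) := by
      intro s hs
      rw [Finset.mem_image] at hs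
      obtain ⟨y, hy, rfl⟩ := hs
      rw [Set.Finite.mem_toFinset] at hy
      rw [hg y hy]
      exact (hF1 hy).1
    obtain ⟨w, h1, h2, h3⟩ := seq p ℓ hp hℓ hexp (hfin.toFinset.image g) (by rw [hcard]; omega)
    have hp2 := hp.two_le
    have hpl : 2 ≤ p * ℓ := by nlinarith
    have hadj2 : ∀ i, X.Adj (w i • u) (w (i + 1) • u) := by
      intro i
      rcases Nat.mod_two_eq_zero_or_one i with hi | hi
      · have h4 := haut (w i) _ _ (hadj _ ((h1 i).1 hi))
        rwa [smul_smul, mul_inv_cancel_left] at h4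
      · have h4 := haut (w (i + 1)) _ _ (hadj _ ((h1 i).2 hi))
        rw [smul_smul, mul_inv_cancel_left] at h4
        exact h4.symm
    refine cycle_of_fun _ _ (by omega) (fun i => w i • u) (fun i _ => hadj2 i) ?_ ?_
    · have h4 := hadj2 (2 * (p * ℓ) - 1)
      rw [Nat.sub_add_cancel (by omega), h2] at h4
      exact h4
    · intro i j hij hj he
      refine h3 i j hij hj ?_
      have h5 : ((w j)⁻¹ * w i) • u = u := by
        rw [mul_smul, he, inv_smul_smul]
      exact (inv_mul_eq_one.mp (hfree _ _ h5)).symm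
  · refine Pool.Agent.H694R4.Law.loc_cycle X haut hfree u v huv _ _ (fun T hT => ?_) hN
    exact haar_cycle p ℓ hp hℓ hexp T (by omega)

end Pool.Agent.W5h11.PE
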