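import Pool.Agent.W5h11.PE.Seq

/-!
# Even cycles and groups of prime exponent
-/

set_option autoImplicit false

namespace Pool.Agent.W5h11.PE

open SimpleGraph
open scoped Classical

open Pool.Agent.H694R4.Law (haar)
open Pool.Agent.Y428.Ab

theorem top_prime (p ℓ : ℕ) (hp : p.Prime) (hℓ : 1 ≤ ℓ) : ∃ C : ℕ,
    ∀ (Γ V : Type) [Group Γ] [Finite V] [MulAction Γ V]
    (X : SimpleGraph V) (_ : ∀ g : Γ, g ^ p = 1)
    (_ : ∀ (g : Γ) (a c : V), X.Adj a c → X.Adj (g • a) (g • c))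
    (_ : ∀ (g : Γ) (a : V), g • a = a → g = 1) (_ : (cycleGraph (2 * (p * ℓ))).Free X),
    X.edgeSet.ncard ^ ℓ ≤
      C * (Nat.card V ^ ℓ * Nat.card (MulAction.orbitRel.Quotient Γ V)) := by
  have hp2 := hp.two_le
  rcases Nat.eq_or_lt_of_le hℓ with h1 | h1
  · subst h1
    refine ⟨p * (2 * 1) ^ 2 + 1, fun Γ V _ _ _ X hexp haut hfree hX => ?_⟩
    have := Pool.Agent.H694R4.Law.edges_loc (G := Γ) X (p * (2 * 1) ^ 2 + 1) (2 * (p * 1))
      (loc p 1 hp le_rfl V X hexp haut hfree) hX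
    rw [pow_one, pow_one]
    calc X.edgeSet.ncard ≤ (p * (2 * 1) ^ 2 + 1) *
          Nat.card (MulAction.orbitRel.Quotient Γ V) * Nat.card V := this
      _ = _ := by ring
  · have hex : ∀ K : ℕ, ∃ B : ℕ, 0 < B ∧ (1 ≤ K → ∀ (Γ : Type) [Group Γ],
        (∀ g : Γ, g ^ p = 1) → CoreP Γ K B ℓ (2 * (p * ℓ))) := by
      intro K
      rcases Nat.lt_or_ge K 1 with h | h
      · exact ⟨1, one_pos, fun h' => absurd h' (by omega)⟩
      · obtain ⟨B, hB, h'⟩ := core_haar K ℓ p (p * (2 * 1) ^ 2 + 1) h (by omega) (by omega)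
        refine ⟨B, hB, fun _ Γ _ hexp => ?_⟩
        intro V _ _ _ Y c' hc' D hD h1 h2 h3 f hf
        refine h' V Γ Y c' hc' D hD h1 h2 h3 f hf (fun T hT => ?_)
        have := haar_cycle p 1 hp le_rfl hexp T (by omega)
        rwa [mul_one] at this
    choose Bf hBf hcore using hex
    obtain ⟨C, hC⟩ := assemble ℓ (2 * (p * ℓ)) (p * (2 * ℓ) ^ 2 + 1) h1 Bf hBf
    refine ⟨C, fun Γ V _ _ _ X hexp haut hfree hX => ?_⟩
    exact hC Γ V X haut hfree (fun K hK => hcore K hK Γ hexp)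
      (loc p ℓ hp hℓ V X hexp haut hfree) hX

end Pool.Agent.W5h11.PE
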